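import Pool.Agent.Y320.ST.Stm

/-!
# The Jacobian of a weakly quasisymmetric map does not vanish (`nz`)

Blow-up at a density point of the set where the derivative vanishes.
-/

set_option autoImplicit false
open Filter Topology MeasureTheory Metric

namespace Pool.Agent.Y141.ST
open Pool.Agent.Y320.CM Pool.Agent.Y320.ST

/-- a bounded set contains few separated points -/
theorem pack (H ε : ℝ) (hε : 0 < ε) : ∃ m : ℕ, ∀ f : ℕ → ℂ, (∀ j, j ≤ m → ‖f j‖ ≤ H) →
    ∃ i j, i < j ∧ j ≤ m ∧ dist (f i) (f j) < ε := by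
  classical
  obtain ⟨t, ht, hcov⟩ := Metric.totallyBounded_iff.1
    (isCompact_closedBall (0 : ℂ) H).totallyBounded (ε / 2) (half_pos hε)
  refine ⟨ht.toFinset.card, fun f hf => ?_⟩
  have hex : ∀ j, ∃ y, j ≤ ht.toFinset.card → y ∈ ht.toFinset ∧ dist (f j) y < ε / 2 := by
    intro j
    by_cases hj : j ≤ ht.toFinset.card
    · have h1 : f j ∈ closedBall (0 : ℂ) H := by
        rw [mem_closedBall, dist_zero_right]
        exact hf j hj
      have h2 := hcov h1
      rw [Set.mem_iUnion₂] at h2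
      obtain ⟨y, hy, hy2⟩ := h2
      exact ⟨y, fun _ => ⟨ht.mem_toFinset.2 hy, hy2⟩⟩
    · exact ⟨0, fun h => absurd h hj⟩
  choose g hg using hex
  obtain ⟨i, hi, j, hj, hij, heq⟩ := Finset.exists_ne_map_eq_of_card_lt_of_maps_to
    (s := Finset.range (ht.toFinset.card + 1)) (t := ht.toFinset) (f := g)
    (by rw [Finset.card_range]; omega)
    (fun k hk => (hg k (by have := Finset.mem_range.1 hk; omega)).1)
  have hi' : i ≤ ht.toFinset.card := by
    have := Finset.mem_range.1 hi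
    omega
  have hj' : j ≤ ht.toFinset.card := by
    have := Finset.mem_range.1 hj
    omega
  have hd : dist (f i) (f j) < ε := by
    have h1 := (hg i hi').2
    have h2 := (hg j hj').2
    rw [heq] at h1
    have h3 := dist_triangle_right (f i) (f j) (g j)
    linarith
  rcases lt_or_gt_of_ne hij with h | h
  · exact ⟨i, j, h, hj', hd⟩
  · exact ⟨j, i, h, hi', by rwa [dist_comm]⟩

/-- equicontinuity of the normalised maps -/
theorem mod_cont (H : ℝ) : ∃ m : ℕ, ∀ v : ℂ ≃ₜ ℂ, WQS H v → ∀ a a' b : ℂ, dist a a' = 1 →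
    dist (v a) (v a') = 1 → dist a b ≤ (1 / 4 : ℝ) ^ m → dist (v a) (v b) ≤ 1 / 4 := by
  by_cases hH : 0 < H
  · obtain ⟨m, hm⟩ := pack H (1 / (4 * H ^ 2)) (by positivity)
    refine ⟨m, fun v hv a a' b h1 h2 h3 => ?_⟩
    set c : ℕ → ℂ := fun j => a + (((1 / 4 : ℝ) ^ j : ℝ) : ℂ) * (a' - a) with hc
    have hn : ‖a' - a‖ = 1 := by
      rw [← dist_eq_norm, dist_comm]
      exact h1
    have hp : ∀ j : ℕ, (0 : ℝ) < (1 / 4 : ℝ) ^ j := fun j => by positivity
    have hac : ∀ j, dist a (c j) = (1 / 4 : ℝ) ^ j := by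
      intro j
      rw [hc]
      simp only
      rw [dist_eq_norm, sub_add_cancel_left, norm_neg, norm_mul, hn, mul_one, Complex.norm_real,
        Real.norm_of_nonneg (hp j).le]
    have hcc : ∀ i j, dist (c j) (c i) = |(1 / 4 : ℝ) ^ j - (1 / 4 : ℝ) ^ i| := by
      intro i j
      rw [hc]
      simp only
      rw [dist_eq_norm, add_sub_add_left_eq_sub, ← sub_mul, norm_mul, hn, mul_one,
        ← Complex.ofReal_sub, Complex.norm_real, Real.norm_eq_abs]
    have hle1 : ∀ j : ℕ, (1 / 4 : ℝ) ^ j ≤ 1 := fun j => pow_le_one₀ (by norm_num) (by norm_num)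
    obtain ⟨i, j, hij, hjm, hd⟩ := hm (fun j => v (c j) - v a) (fun j _ => by
      rw [← dist_eq_norm, dist_comm]
      have := hv a (c j) a' (by rw [hac, h1]; linarith [hle1 j])
      rwa [h2, mul_one] at this)
    have hd' : dist (v (c j)) (v (c i)) < 1 / (4 * H ^ 2) := by
      rw [dist_comm]
      rwa [dist_sub_right] at hd
    have h4 : 4 * (1 / 4 : ℝ) ^ j ≤ (1 / 4 : ℝ) ^ i := by
      have h5 : (1 / 4 : ℝ) ^ j ≤ (1 / 4 : ℝ) ^ (i + 1) :=
        pow_le_pow_of_le_one (by norm_num) (by norm_num) hij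
      rw [pow_succ] at h5
      linarith
    have h6 : dist (v (c j)) (v a) ≤ H * dist (v (c j)) (v (c i)) := by
      refine hv (c j) a (c i) ?_
      rw [dist_comm, hac, hcc, abs_sub_comm, abs_of_nonneg (by linarith [hp j])]
      linarith [hp j]
    have h7 : dist (v a) (v b) ≤ H * dist (v a) (v (c j)) := by
      refine hv a b (c j) ?_
      rw [hac]
      have h8 : (1 / 4 : ℝ) ^ m ≤ (1 / 4 : ℝ) ^ j :=
        pow_le_pow_of_le_one (by norm_num) (by norm_num) hjm
      linarith [hp j]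
    rw [dist_comm (v (c j)) (v a)] at h6
    calc dist (v a) (v b) ≤ H * dist (v a) (v (c j)) := h7
      _ ≤ H * (H * dist (v (c j)) (v (c i))) := mul_le_mul_of_nonneg_left h6 hH.le
      _ ≤ H * (H * (1 / (4 * H ^ 2))) :=
          mul_le_mul_of_nonneg_left (mul_le_mul_of_nonneg_left hd'.le hH.le) hH.le
      _ = 1 / 4 := by field_simp
  · refine ⟨0, fun v hv a a' b h1 h2 h3 => ?_⟩
    exfalso
    have := hv a a' a' (by rw [h1]; norm_num)
    rw [h2, mul_one] at this
    linarith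

/-- the complex conjugate -/
noncomputable def cj (v : ℂ ≃ₜ ℂ) : ℂ ≃ₜ ℂ := v.trans Complex.conjLIE.toHomeomorph

theorem cj_apply (v : ℂ ≃ₜ ℂ) (z : ℂ) : cj v z = (starRingEnd ℂ) (v z) := rfl

theorem cj_dist (v : ℂ ≃ₜ ℂ) (a b : ℂ) : dist (cj v a) (cj v b) = dist (v a) (v b) :=
  Complex.conjLIE.dist_map _ _

theorem cj_wqs {H : ℝ} {v : ℂ ≃ₜ ℂ} (hv : WQS H v) : WQS H (cj v) := by
  intro a b c h
  rw [cj_dist, cj_dist]
  exact hv a b c h

theorem int_conj (f : ℝ → ℂ) (a b : ℝ) :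
    ∫ x in a..b, (starRingEnd ℂ) (f x) = (starRingEnd ℂ) (∫ x in a..b, f x) := by
  unfold intervalIntegral
  rw [integral_conj, integral_conj, map_sub]

theorem side (v : ℂ ≃ₜ ℂ) (x0 x1 y0 y1 δ : ℝ) (h1 : ‖rectInt v x0 x1 y0 y1‖ ≤ δ)
    (h2 : ‖rectInt (cj v) x0 x1 y0 y1‖ ≤ δ) :
    ‖(∫ y in y0..y1, v (x1 + y * Complex.I)) - ∫ y in y0..y1, v (x0 + y * Complex.I)‖ ≤ δ := by
  unfold rectInt at h1 h2
  simp only [cj_apply] at h2
  rw [int_conj (fun x => v (x + y0 * Complex.I)), int_conj (fun x => v (x + y1 * Complex.I)),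
    int_conj (fun y => v (x1 + y * Complex.I)), int_conj (fun y => v (x0 + y * Complex.I))] at h2
  set I1 := ∫ x in x0..x1, v (x + y0 * Complex.I)
  set I2 := ∫ x in x0..x1, v (x + y1 * Complex.I)
  set I3 := ∫ y in y0..y1, v (x1 + y * Complex.I)
  set I4 := ∫ y in y0..y1, v (x0 + y * Complex.I)
  have e1 : (starRingEnd ℂ) I1 - (starRingEnd ℂ) I2 + Complex.I * (starRingEnd ℂ) I3 -
      Complex.I * (starRingEnd ℂ) I4 =
      (starRingEnd ℂ) (I1 - I2 - Complex.I * (I3 - I4)) := by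
    rw [map_sub, map_sub, map_mul, map_sub, Complex.conj_I]
    ring
  rw [e1, RCLike.norm_conj] at h2
  have e2 : (2 : ℂ) * Complex.I * (I3 - I4) = (I1 - I2 + Complex.I * I3 - Complex.I * I4) -
      (I1 - I2 - Complex.I * (I3 - I4)) := by ring
  have h3 : ‖(2 : ℂ) * Complex.I * (I3 - I4)‖ ≤ δ + δ := by
    rw [e2]
    exact (norm_sub_le _ _).trans (add_le_add h1 h2)
  rw [norm_mul, norm_mul, Complex.norm_I, mul_one, Complex.norm_ofNat] at h3
  linarith

/-- **key step** -/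
theorem key (H : ℝ) (hM : S_MOR) : ∃ η : ℝ, 0 < η ∧ ∀ v : ℂ ≃ₜ ℂ, WQS H v → v 0 = 0 → v 1 = 1 →
    ∀ P1 : Set ℂ, volume P1 ≤ ENNReal.ofReal η →
      (∀ z : ℂ, ‖z‖ ≤ 2 → z ∉ P1 → HasFDerivAt v (0 : ℂ →L[ℝ] ℂ) z) → False := by
  obtain ⟨m, hm⟩ := mod_cont H
  set h : ℝ := (1 / 4 : ℝ) ^ m with hh
  have hh0 : 0 < h := by positivity
  have hh1 : h ≤ 1 := pow_le_one₀ (by norm_num) (by norm_num)
  obtain ⟨η, hη, hMor⟩ := hM H 1 (volume (closedBall (0 : ℂ) H)).toReal (h / 4) (by positivity)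
  refine ⟨η, hη, fun v hv v0 v1 P1 hP hz => ?_⟩
  have hsub : ∀ z ∈ Rect 0 1 0 h, ‖z‖ ≤ 2 := by
    rintro z ⟨h1, h2, h3, h4⟩
    have h5 := Complex.norm_le_abs_re_add_abs_im z
    rw [abs_of_nonneg h1, abs_of_nonneg h3] at h5
    linarith
  have gen : ∀ w : ℂ ≃ₜ ℂ, WQS H w → w 0 = 0 → w 1 = 1 →
      (∀ z : ℂ, ‖z‖ ≤ 2 → z ∉ P1 → HasFDerivAt w (0 : ℂ →L[ℝ] ℂ) z) →
      ‖rectInt w 0 1 0 h‖ ≤ h / 4 := by
    intro w hw w0 w1 hwz
    refine hMor w hw 0 1 0 h one_pos hh0 (by linarith) ?_ P1 ∅ hP ?_ ?_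
    · rw [ENNReal.ofReal_toReal (measure_closedBall_lt_top).ne]
      refine measure_mono ?_
      rintro _ ⟨z, hz, rfl⟩
      have h1 := hw 0 z 1 (by
        rw [dist_zero_left, dist_zero_left, norm_one]
        linarith [hsub z hz])
      rw [w0, w1, dist_zero_left, dist_zero_left, norm_one, mul_one] at h1
      rw [mem_closedBall, dist_zero_right]
      exact h1
    · rw [Set.image_empty, measure_empty]
      exact zero_le
    · intro z hz1 hz2 _
      exact ⟨0, 0, hwz z (hsub z hz1) hz2, fun w => by simp⟩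
  have g1 := gen v hv v0 v1 hz
  have g2 := gen (cj v) (cj_wqs hv) (by rw [cj_apply, v0, map_zero]) (by rw [cj_apply, v1, map_one])
    (fun z h1 h2 => by
      have h3 := (Complex.conjCLE : ℂ ≃L[ℝ] ℂ).hasFDerivAt.comp z (hz z h1 h2)
      rw [ContinuousLinearMap.comp_zero] at h3
      exact h3)
  have g3 := side v 0 1 0 h (h / 4) g1 g2
  -- lower bound
  have c1 : Continuous fun y : ℝ => v (((1 : ℝ) : ℂ) + y * Complex.I) :=
    v.continuous.comp (by fun_prop)
  have c0 : Continuous fun y : ℝ => v (((0 : ℝ) : ℂ) + y * Complex.I) :=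
    v.continuous.comp (by fun_prop)
  rw [← intervalIntegral.integral_sub (c1.intervalIntegrable _ _) (c0.intervalIntegrable _ _)] at g3
  have g4 : ‖∫ y in (0 : ℝ)..h, ((v (((1 : ℝ) : ℂ) + y * Complex.I) -
      v (((0 : ℝ) : ℂ) + y * Complex.I)) - 1)‖ ≤ (1 / 2) * |h - 0| := by
    refine intervalIntegral.norm_integral_le_of_norm_le_const fun y hy => ?_
    rw [Set.uIoc_of_le hh0.le] at hy
    have hyn : ‖(y : ℂ) * Complex.I‖ ≤ h := by
      rw [norm_mul, Complex.norm_I, mul_one, Complex.norm_real, Real.norm_of_nonneg hy.1.le]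
      exact hy.2
    have m1 := hm v hv 1 0 (((1 : ℝ) : ℂ) + y * Complex.I) (by simp) (by rw [v0, v1]; simp) (by
      rw [dist_eq_norm, Complex.ofReal_one, sub_add_cancel_left, norm_neg]
      exact hyn)
    have m0 := hm v hv 0 1 (((0 : ℝ) : ℂ) + y * Complex.I) (by simp) (by rw [v0, v1]; simp) (by
      rw [dist_eq_norm, Complex.ofReal_zero, sub_add_cancel_left, norm_neg]
      exact hyn)
    rw [v1, dist_eq_norm] at m1
    rw [v0, dist_eq_norm] at m0
    have e : (v (((1 : ℝ) : ℂ) + y * Complex.I) - v (((0 : ℝ) : ℂ) + y * Complex.I)) - 1 =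
        (0 - v (((0 : ℝ) : ℂ) + y * Complex.I)) - (1 - v (((1 : ℝ) : ℂ) + y * Complex.I)) := by
      ring
    rw [e]
    refine (norm_sub_le _ _).trans ?_
    linarith
  have c10 : Continuous fun y : ℝ => v (((1 : ℝ) : ℂ) + y * Complex.I) -
      v (((0 : ℝ) : ℂ) + y * Complex.I) := c1.sub c0
  rw [intervalIntegral.integral_sub (c10.intervalIntegrable _ _)
    (continuous_const.intervalIntegrable _ _), intervalIntegral.integral_const, sub_zero,
    abs_of_pos hh0] at g4
  set J := ∫ y in (0 : ℝ)..h, (v (((1 : ℝ) : ℂ) + y * Complex.I) -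
      v (((0 : ℝ) : ℂ) + y * Complex.I))
  have g5 : ‖h • (1 : ℂ)‖ ≤ ‖J‖ + ‖J - h • (1 : ℂ)‖ := by
    have : h • (1 : ℂ) = J - (J - h • (1 : ℂ)) := by ring
    calc ‖h • (1 : ℂ)‖ = ‖J - (J - h • (1 : ℂ))‖ := by rw [← this]
      _ ≤ _ := norm_sub_le _ _
  rw [norm_smul, norm_one, mul_one, Real.norm_of_nonneg hh0.le] at g5
  linarith

/-- scaling -/
theorem scale {r : ℝ} (hr : 0 < r) (x : ℂ) (S : Set ℂ) :
    volume ((fun z : ℂ => x + r * z) ⁻¹' S) = ENNReal.ofReal |(r ^ 2)⁻¹| * volume S := by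
  have h1 : (fun z : ℂ => x + r * z) ⁻¹' S = (r • ·) ⁻¹' ((x + ·) ⁻¹' S) := by
    ext z
    simp only [Set.mem_preimage, Complex.real_smul]
  rw [h1, Measure.addHaar_preimage_smul volume hr.ne', measure_preimage_add,
    Complex.finrank_real_complex]

theorem nz (hD : S_DIFF) (hM : S_MOR) : S_NZ := by
  intro H u hu _
  obtain ⟨K, hK, hDu⟩ := hD H
  have h1 := hDu u hu
  obtain ⟨η, hη, hkey⟩ := key H hM
  set E : Set ℂ := {z | DifferentiableAt ℝ u z ∧ fderiv ℝ u z = 0} with hEdef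
  have hE : MeasurableSet E :=
    (measurableSet_of_differentiableAt ℝ u).inter
      ((measurable_fderiv ℝ u) (measurableSet_singleton 0))
  have hE0 : volume E = 0 := by
    by_contra hne
    have hdens := Besicovitch.ae_tendsto_measure_inter_div_of_measurableSet
      (volume : Measure ℂ) hE.compl
    obtain ⟨x, hx, hxd⟩ : ∃ x ∈ E, Tendsto (fun r => volume (Eᶜ ∩ closedBall x r) /
        volume (closedBall x r)) (𝓝[>] 0) (𝓝 (Eᶜ.indicator 1 x)) := by
      by_contra hcon
      push Not at hcon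
      apply hne
      rw [measure_eq_zero_iff_ae_notMem]
      filter_upwards [hdens] with x hx hxE
      exact hcon x hxE hx
    have hxc : x ∉ Eᶜ := fun h => h hx
    have hx0 : (Eᶜ.indicator (1 : ℂ → ENNReal) x) = 0 :=
      Set.indicator_of_notMem hxc _
    rw [hx0] at hxd
    set V2 := volume (closedBall (0 : ℂ) 2) with hV2
    have hV20 : V2 ≠ 0 := (measure_closedBall_pos volume (0 : ℂ) two_pos).ne'
    have hV2t : V2 ≠ ⊤ := measure_closedBall_lt_top.ne
    have hpos : 0 < ENNReal.ofReal η / V2 :=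
      ENNReal.div_pos (ENNReal.ofReal_pos.2 hη).ne' hV2t
    have hev := hxd.eventually (gt_mem_nhds hpos)
    obtain ⟨ρ, hρlt, hρ0⟩ := (hev.and self_mem_nhdsWithin).exists
    have hρ0' : 0 < ρ := hρ0
    set r : ℝ := ρ / 2 with hr
    have hr0 : 0 < r := by positivity
    have hrC : ((r : ℝ) : ℂ) ≠ 0 := by exact_mod_cast hr0.ne'
    -- the rescaled map
    have hk0 : u (x + r) - u x ≠ 0 := by
      intro h2
      have h3 := u.injective (sub_eq_zero.1 h2)
      apply hrC
      simpa using h3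
    let v : ℂ ≃ₜ ℂ := ((Homeomorph.mulLeft₀ ((r : ℝ) : ℂ) hrC).trans (Homeomorph.addLeft x)).trans
      (u.trans ((Homeomorph.addRight (-(u x))).trans
        (Homeomorph.mulLeft₀ (u (x + r) - u x)⁻¹ (inv_ne_zero hk0))))
    have hv : ∀ z, v z = (u (x + r) - u x)⁻¹ * (u (x + r * z) + -(u x)) := fun z => rfl
    have hvd : ∀ a b, dist (v a) (v b) =
        ‖(u (x + r) - u x)⁻¹‖ * dist (u (x + r * a)) (u (x + r * b)) := by
      intro a b
      rw [dist_eq_norm, hv, hv, ← mul_sub, norm_mul, add_sub_add_right_eq_sub, dist_eq_norm]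
    have hvq : WQS H v := by
      intro a b c habc
      rw [hvd, hvd]
      have h2 := hu (x + r * a) (x + r * b) (x + r * c) (by
        rw [dist_add_left, dist_add_left, dist_eq_norm, dist_eq_norm, ← mul_sub, ← mul_sub,
          norm_mul, norm_mul, ← dist_eq_norm, ← dist_eq_norm]
        have := norm_nonneg ((r : ℝ) : ℂ)
        calc ‖((r : ℝ) : ℂ)‖ * dist a b ≤ ‖((r : ℝ) : ℂ)‖ * (3 * dist a c) :=
              mul_le_mul_of_nonneg_left habc this
          _ = _ := by ring)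
      calc _ ≤ ‖(u (x + r) - u x)⁻¹‖ * (H * dist (u (x + r * a)) (u (x + r * c))) :=
            mul_le_mul_of_nonneg_left h2 (norm_nonneg _)
        _ = _ := by ring
    refine hkey v hvq ?_ ?_ ((fun z : ℂ => x + r * z) ⁻¹' (Eᶜ ∩ closedBall x ρ)) ?_ ?_
    · rw [hv, mul_zero, add_zero, add_neg_cancel, mul_zero]
    · rw [hv, mul_one, ← sub_eq_add_neg, inv_mul_cancel₀ hk0]
    · have hball : (fun z : ℂ => x + r * z) ⁻¹' closedBall x ρ = closedBall (0 : ℂ) 2 := by
        ext z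
        rw [Set.mem_preimage, mem_closedBall, mem_closedBall, dist_zero_right, dist_eq_norm,
          add_sub_cancel_left, norm_mul, Complex.norm_real, Real.norm_of_nonneg hr0.le]
        constructor
        · intro h2
          rw [hr] at h2
          by_contra h3
          push Not at h3
          nlinarith
        · intro h2
          rw [hr]
          nlinarith
      have hVs : V2 = ENNReal.ofReal |(r ^ 2)⁻¹| * volume (closedBall x ρ) := by
        rw [hV2, ← hball, scale hr0]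
      rw [scale hr0]
      have hb0 : volume (closedBall x ρ) ≠ 0 := (measure_closedBall_pos volume x hρ0').ne'
      have hbt : volume (closedBall x ρ) ≠ ⊤ := measure_closedBall_lt_top.ne
      have h2 : volume (Eᶜ ∩ closedBall x ρ) ≤ ENNReal.ofReal η / V2 * volume (closedBall x ρ) := by
        rw [← ENNReal.div_le_iff hb0 hbt]
        exact hρlt.le
      calc ENNReal.ofReal |(r ^ 2)⁻¹| * volume (Eᶜ ∩ closedBall x ρ)
          ≤ ENNReal.ofReal |(r ^ 2)⁻¹| * (ENNReal.ofReal η / V2 * volume (closedBall x ρ)) :=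
            mul_le_mul_right h2 _
        _ = ENNReal.ofReal η / V2 * (ENNReal.ofReal |(r ^ 2)⁻¹| * volume (closedBall x ρ)) := by
            ring
        _ = ENNReal.ofReal η / V2 * V2 := by rw [← hVs]
        _ = ENNReal.ofReal η := ENNReal.div_mul_cancel hV20 hV2t
    · intro z hz hzP
      have hzE : x + r * z ∈ E := by
        by_contra h2
        apply hzP
        refine ⟨h2, ?_⟩
        rw [mem_closedBall, dist_eq_norm, add_sub_cancel_left, norm_mul, Complex.norm_real,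
          Real.norm_of_nonneg hr0.le, hr]
        nlinarith
      have h3 : HasFDerivAt u (0 : ℂ →L[ℝ] ℂ) (x + r * z) := by
        have h4 := hzE.1.hasFDerivAt
        rw [hzE.2] at h4
        exact h4
      have h5 : HasFDerivAt (fun z : ℂ => x + r * z) ((r : ℂ) • ContinuousLinearMap.id ℝ ℂ) z :=
        ((hasFDerivAt_id z).const_mul (r : ℂ)).const_add x
      have h6 := h3.comp z h5
      rw [ContinuousLinearMap.zero_comp] at h6
      have h7 := (h6.add_const (-(u x))).const_mul ((u (x + r) - u x)⁻¹)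
      rw [smul_zero] at h7
      exact h7
  filter_upwards [h1, measure_eq_zero_iff_ae_notMem.1 hE0] with z hz1 hz2 hdet
  apply hz2
  refine ⟨hz1.1, ?_⟩
  have h3 := hz1.2
  rw [hdet, abs_zero, mul_zero] at h3
  have h4 : ‖fderiv ℝ u z‖ = 0 := by
    have := norm_nonneg (fderiv ℝ u z)
    nlinarith
  exact norm_eq_zero.1 h4

end Pool.Agent.Y141.ST
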